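import Pool.Agent.W737.SB.Defs
import Pool.Agent.W737.SQ.Ball

/-!
# The ball automorphism and the Schwarz-Pick lemma in the ball
-/

set_option autoImplicit false

open Metric Set
open Pool.Agent.W737.SB

namespace Pool.Agent.W397.SB

variable {n : ℕ}

/-- the square root in the definition of `aut` -/
noncomputable def sr (a : V n) : ℝ := Real.sqrt (1 - ‖a‖ ^ 2)

theorem one_sub_pos {a : V n} (ha : ‖a‖ < 1) : 0 < 1 - ‖a‖ ^ 2 := by
  nlinarith [norm_nonneg a]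

theorem sr_pos {a : V n} (ha : ‖a‖ < 1) : 0 < sr a := Real.sqrt_pos.2 (one_sub_pos ha)

theorem sr_sq {a : V n} (ha : ‖a‖ < 1) : sr a ^ 2 = 1 - ‖a‖ ^ 2 := Real.sq_sqrt (one_sub_pos ha).le

theorem one_add_sr_ne {a : V n} (ha : ‖a‖ < 1) : (1 + (sr a : ℂ)) ≠ 0 := by
  have : (1 + sr a : ℝ) ≠ 0 := by
    have := sr_pos ha
    positivity
  exact_mod_cast this

theorem aut_eq (a x : V n) : aut a x = ((1 - inner ℂ a x : ℂ)⁻¹) • (a - (sr a : ℂ) • x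
    - ((inner ℂ a x : ℂ) / (1 + (sr a : ℂ))) • a) := rfl

theorem aut_eq' (a x : V n) : aut a x = ((1 - inner ℂ a x : ℂ)⁻¹) •
    ((1 - (inner ℂ a x : ℂ) / (1 + (sr a : ℂ))) • a - (sr a : ℂ) • x) := by
  rw [aut_eq]
  congr 1
  rw [sub_smul, one_smul]; abel

theorem den_ge (a x : V n) : 1 - ‖a‖ * ‖x‖ ≤ ‖(1 - inner ℂ a x : ℂ)‖ := by
  have h1 := norm_inner_le_norm (𝕜 := ℂ) a x
  have h2 : ‖(1 : ℂ)‖ - ‖(inner ℂ a x : ℂ)‖ ≤ ‖(1 - inner ℂ a x : ℂ)‖ := norm_sub_norm_le _ _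
  rw [norm_one] at h2
  linarith

theorem den_le (a x : V n) : ‖(1 - inner ℂ a x : ℂ)‖ ≤ 1 + ‖a‖ * ‖x‖ := by
  have h1 := norm_inner_le_norm (𝕜 := ℂ) a x
  have h2 : ‖(1 - inner ℂ a x : ℂ)‖ ≤ ‖(1 : ℂ)‖ + ‖(inner ℂ a x : ℂ)‖ := norm_sub_le _ _
  rw [norm_one] at h2
  linarith

theorem den_pos {a x : V n} (ha : ‖a‖ < 1) (hx : ‖x‖ < 1) : 0 < ‖(1 - inner ℂ a x : ℂ)‖ := by
  have := den_ge a x
  nlinarith [norm_nonneg a, norm_nonneg x]

theorem den_ne {a x : V n} (ha : ‖a‖ < 1) (hx : ‖x‖ < 1) : (1 - inner ℂ a x : ℂ) ≠ 0 :=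
  norm_pos_iff.1 (den_pos ha hx)

theorem inner_self_sr {a : V n} (ha : ‖a‖ < 1) :
    (inner ℂ a a : ℂ) = 1 - (sr a : ℂ) ^ 2 := by
  rw [inner_self_eq_norm_sq_to_K]
  have h := sr_sq ha
  have h2 : ((sr a : ℂ)) ^ 2 = ((1 - ‖a‖ ^ 2 : ℝ) : ℂ) := by rw [← h]; push_cast; rfl
  rw [h2]
  push_cast
  simp

/-- the norm of the automorphism -/
theorem one_sub_norm_aut {a x : V n} (ha : ‖a‖ < 1) (hx : ‖x‖ < 1) :
    1 - ‖aut a x‖ ^ 2 = (1 - ‖a‖ ^ 2) * (1 - ‖x‖ ^ 2) / ‖(1 - inner ℂ a x : ℂ)‖ ^ 2 := by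
  have hd := den_pos ha hx
  have hid := Pool.Agent.W737.SQ.aut_identity a x (sr_pos ha).le (sr_sq ha)
  rw [aut_eq, norm_smul, norm_inv, mul_pow, hid, sr_sq ha, inv_pow]
  field_simp
  ring

theorem aut_mem {a x : V n} (ha : ‖a‖ < 1) (hx : ‖x‖ < 1) : ‖aut a x‖ < 1 := by
  have h1 := one_sub_norm_aut ha hx
  have h2 : 0 < (1 - ‖a‖ ^ 2) * (1 - ‖x‖ ^ 2) / ‖(1 - inner ℂ a x : ℂ)‖ ^ 2 :=
    div_pos (mul_pos (one_sub_pos ha) (one_sub_pos hx)) (pow_pos (den_pos ha hx) 2)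
  nlinarith [norm_nonneg (aut a x)]

/-- the Moebius bound -/
theorem norm_aut_le {a x : V n} (ha : ‖a‖ < 1) (hx : ‖x‖ < 1) :
    ‖aut a x‖ * (1 + ‖a‖ * ‖x‖) ≤ ‖a‖ + ‖x‖ := by
  have h1 := one_sub_norm_aut ha hx
  have hd := den_pos ha hx
  have hd2 := den_le a x
  have ha0 := norm_nonneg a
  have hx0 := norm_nonneg x
  have hp : 0 < (1 - ‖a‖ ^ 2) * (1 - ‖x‖ ^ 2) := mul_pos (one_sub_pos ha) (one_sub_pos hx)
  have hq : 0 < 1 + ‖a‖ * ‖x‖ := by positivity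
  have h2 : (1 - ‖a‖ ^ 2) * (1 - ‖x‖ ^ 2) / (1 + ‖a‖ * ‖x‖) ^ 2 ≤ 1 - ‖aut a x‖ ^ 2 := by
    rw [h1]
    apply div_le_div_of_nonneg_left hp.le (pow_pos hd 2)
    exact pow_le_pow_left₀ hd.le hd2 2
  rw [div_le_iff₀ (pow_pos hq 2)] at h2
  apply le_of_sq_le_sq _ (by positivity)
  rw [mul_pow]
  nlinarith

theorem inner_aut {a x : V n} (ha : ‖a‖ < 1) (hx : ‖x‖ < 1) :
    1 - (inner ℂ a (aut a x) : ℂ) = (sr a : ℂ) ^ 2 / (1 - inner ℂ a x) := by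
  have hd := den_ne ha hx
  have hs := one_add_sr_ne ha
  rw [aut_eq', inner_smul_right, inner_sub_right, inner_smul_right, inner_smul_right,
    inner_self_sr ha]
  set τ : ℂ := inner ℂ a x
  field_simp
  ring

theorem aut_aut {a x : V n} (ha : ‖a‖ < 1) (hx : ‖x‖ < 1) : aut a (aut a x) = x := by
  have hd := den_ne ha hx
  have hs := one_add_sr_ne ha
  have hs0 : (sr a : ℂ) ≠ 0 := by exact_mod_cast (sr_pos ha).ne'
  have h1 := inner_aut ha hx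
  rw [aut_eq' a (aut a x), h1]
  have h2 : (inner ℂ a (aut a x) : ℂ) = 1 - (sr a : ℂ) ^ 2 / (1 - inner ℂ a x) := by
    rw [← h1]; ring
  rw [h2, aut_eq' a x]
  set τ : ℂ := inner ℂ a x
  set s : ℂ := (sr a : ℂ)
  simp only [smul_sub, smul_smul]
  rw [← sub_add, ← sub_smul]
  have e1 : (s ^ 2 / (1 - τ))⁻¹ * (1 - (1 - s ^ 2 / (1 - τ)) / (1 + s)) -
      (s ^ 2 / (1 - τ))⁻¹ * (s * ((1 - τ)⁻¹ * (1 - τ / (1 + s)))) = 0 := by
    field_simp
    ring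
  have e2 : (s ^ 2 / (1 - τ))⁻¹ * (s * ((1 - τ)⁻¹ * s)) = 1 := by
    field_simp
  rw [e1, e2, zero_smul, zero_add, one_smul]

theorem aut_zero (a : V n) : aut a 0 = a := by
  rw [aut_eq']; simp

theorem aut_self {a : V n} (ha : ‖a‖ < 1) : aut a a = 0 := by
  have hs := one_add_sr_ne ha
  rw [aut_eq', inner_self_sr ha]
  have : (1 - (1 - (sr a : ℂ) ^ 2) / (1 + (sr a : ℂ))) = (sr a : ℂ) := by
    field_simp
    ring
  rw [this, sub_self, smul_zero]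

theorem aut_diff {a : V n} (ha : ‖a‖ < 1) {x : V n} (hx : ‖x‖ < 1) :
    DifferentiableAt ℂ (aut a) x := by
  have hinner : Differentiable ℂ (fun x : V n => (inner ℂ a x : ℂ)) := (innerSL ℂ a).differentiable
  have hNd : Differentiable ℂ (fun x : V n => a - (sr a : ℂ) • x
      - ((inner ℂ a x : ℂ) / (1 + (sr a : ℂ))) • a) := by
    apply Differentiable.sub
    · exact (differentiable_const _).sub (differentiable_id.fun_const_smul _)
    · have h1 : Differentiable ℂ (fun x : V n => (inner ℂ a x : ℂ) / (1 + (sr a : ℂ))) := by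
        simpa [div_eq_mul_inv] using hinner.mul_const ((1 + (sr a : ℂ))⁻¹)
      exact h1.smul_const _
  exact (((differentiableAt_const _).sub (hinner x)).inv (den_ne ha hx)).smul (hNd x)

theorem norm_fderiv_aut {a : V n} (ha : ‖a‖ < 1) (v : V n) :
    ‖fderiv ℂ (aut a) a v‖ ^ 2
      = ‖v‖ ^ 2 / (1 - ‖a‖ ^ 2) + ‖(inner ℂ a v : ℂ)‖ ^ 2 / (1 - ‖a‖ ^ 2) ^ 2 := by
  set s : ℝ := sr a with hs
  have hs0 : 0 < s := sr_pos ha
  have hs2 : s ^ 2 = 1 - ‖a‖ ^ 2 := sr_sq ha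
  have h1sc : (1 + (s : ℂ)) ≠ 0 := one_add_sr_ne ha
  set N : V n → V n := fun x => a - (s : ℂ) • x - ((inner ℂ a x : ℂ) / (1 + s)) • a with hN
  have haa : (inner ℂ a a : ℂ) = 1 - (s : ℂ) ^ 2 := inner_self_sr ha
  have hinner : Differentiable ℂ (fun x : V n => (inner ℂ a x : ℂ)) := (innerSL ℂ a).differentiable
  have hNw : N a = 0 := by
    change a - (s : ℂ) • a - ((inner ℂ a a : ℂ) / (1 + s)) • a = 0
    rw [haa]
    have : ((1 - (s : ℂ) ^ 2) / (1 + s)) = 1 - (s : ℂ) := by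
      rw [div_eq_iff h1sc]; ring
    rw [this, sub_smul, one_smul]; abel
  have e1 : HasFDerivAt N ((0 : V n →L[ℂ] V n) - (s : ℂ) • ContinuousLinearMap.id ℂ (V n) -
      (((1 + (s : ℂ))⁻¹) • (innerSL ℂ a)).smulRight a) a := by
    have a1 : HasFDerivAt (fun _ : V n => a) (0 : V n →L[ℂ] V n) a := hasFDerivAt_const _ _
    have a2 : HasFDerivAt (fun x : V n => (s : ℂ) • x) ((s : ℂ) • ContinuousLinearMap.id ℂ (V n)) a :=
      (hasFDerivAt_id a).fun_const_smul _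
    have a3 : HasFDerivAt (fun x : V n => ((inner ℂ a x : ℂ) / (1 + s)) • a)
        ((((1 + (s : ℂ))⁻¹) • (innerSL ℂ a)).smulRight a) a := by
      have b1 : HasFDerivAt (fun x : V n => ((inner ℂ a x : ℂ) / (1 + s)))
          (((1 + (s : ℂ))⁻¹) • (innerSL ℂ a)) a := by
        have := ((innerSL ℂ a).hasFDerivAt (x := a)).const_smul ((1 + (s : ℂ))⁻¹)
        refine this.congr_of_eventuallyEq (Filter.Eventually.of_forall fun x => ?_)
        simp [div_eq_inv_mul]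
      exact b1.smul_const a
    exact (a1.sub a2).sub a3
  have hNd' : HasFDerivAt N (fderiv ℂ N a) a := e1.differentiableAt.hasFDerivAt
  have hinv : HasFDerivAt (fun x : V n => (1 - inner ℂ a x : ℂ)⁻¹)
      (fderiv ℂ (fun x : V n => (1 - inner ℂ a x : ℂ)⁻¹) a) a :=
    (((differentiableAt_const _).sub (hinner a)).inv (den_ne ha ha)).hasFDerivAt
  have hd1 : fderiv ℂ (aut a) a v = ((1 - inner ℂ a a : ℂ)⁻¹) • fderiv ℂ N a v := by
    have := (hinv.smul hNd').fderiv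
    have h2 : fderiv ℂ (aut a) a = (1 - inner ℂ a a : ℂ)⁻¹ • fderiv ℂ N a +
        (fderiv ℂ (fun x : V n => (1 - inner ℂ a x : ℂ)⁻¹) a).smulRight (N a) := this
    rw [h2, hNw]
    simp
  have hd2 : fderiv ℂ N a v = -((s : ℂ) • v) - ((inner ℂ a v : ℂ) / (1 + s)) • a := by
    rw [e1.fderiv]
    simp [div_eq_inv_mul]
  have hnorm : ‖fderiv ℂ N a v‖ ^ 2 = s ^ 2 * ‖v‖ ^ 2 + ‖(inner ℂ a v : ℂ)‖ ^ 2 := by
    have hre : fderiv ℂ N a v = -((s : ℂ) • v + ((inner ℂ a v : ℂ) / (1 + s)) • a) := by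
      rw [hd2]; abel
    rw [hre, norm_neg, @norm_add_sq ℂ, norm_smul, norm_smul, inner_smul_left, inner_smul_right]
    have hsn : ‖(s : ℂ)‖ = s := by rw [Complex.norm_real, Real.norm_of_nonneg hs0.le]
    have hvw : (inner ℂ v a : ℂ) = (starRingEnd ℂ) (inner ℂ a v) := (inner_conj_symm _ _).symm
    rw [hsn, hvw]
    set τ : ℂ := inner ℂ a v with hτ
    have hwn : ‖a‖ ^ 2 = 1 - s ^ 2 := by linarith
    have e1 : ‖τ / (1 + (s : ℂ))‖ ^ 2 = ‖τ‖ ^ 2 / (1 + s) ^ 2 := by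
      rw [norm_div, div_pow]
      congr 2
      rw [show (1 + (s : ℂ)) = ((1 + s : ℝ) : ℂ) by push_cast; ring, Complex.norm_real,
        Real.norm_of_nonneg (by positivity)]
    have e2 : RCLike.re ((starRingEnd ℂ) (s : ℂ) * (τ / (1 + (s : ℂ)) * (starRingEnd ℂ) τ))
        = s * (‖τ‖ ^ 2 / (1 + s)) := by
      have : (starRingEnd ℂ) (s : ℂ) * (τ / (1 + (s : ℂ)) * (starRingEnd ℂ) τ)
          = ((s * (‖τ‖ ^ 2 / (1 + s)) : ℝ) : ℂ) := by
        rw [Complex.conj_ofReal]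
        have h5 : τ * (starRingEnd ℂ) τ = ((‖τ‖ ^ 2 : ℝ) : ℂ) := by
          rw [Complex.mul_conj, Complex.normSq_eq_norm_sq]
        push_cast
        rw [div_mul_eq_mul_div, h5]
        push_cast
        ring
      rw [this, RCLike.re_eq_complex_re, Complex.ofReal_re]
    rw [mul_pow, mul_pow, e1, e2, hwn]
    have h1s : (1 + s : ℝ) ≠ 0 := by positivity
    field_simp
    ring
  have hd3 : ‖(1 - inner ℂ a a : ℂ)⁻¹‖ = (s ^ 2)⁻¹ := by
    rw [haa, norm_inv, show (1 - (1 - (s : ℂ) ^ 2)) = ((s ^ 2 : ℝ) : ℂ) by push_cast; ring,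
      Complex.norm_real, Real.norm_of_nonneg (by positivity)]
  rw [hd1, norm_smul, hd3, mul_pow, hnorm, ← hs2]
  have hs4 : 0 < s ^ 2 := by positivity
  field_simp

theorem t_aut : S_aut := by
  intro n a ha
  refine ⟨fun x hx => (aut_diff ha (by simpa using hx)).differentiableWithinAt,
    fun x hx => ?_, fun x hx => aut_aut ha (by simpa using hx), aut_zero a, aut_self ha,
    fun x hx => one_sub_norm_aut ha (by simpa using hx),
    fun x hx => norm_aut_le ha (by simpa using hx), norm_fderiv_aut ha⟩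
  rw [mem_ball_zero_iff] at hx ⊢
  exact aut_mem ha hx

theorem t_sp : S_sp := by
  intro n G hG hGm x hx
  have hx1 : ‖x‖ < 1 := by simpa using hx
  have h0 : (0 : V n) ∈ ball (0 : V n) 1 := mem_ball_self one_pos
  have ha : ‖G 0‖ < 1 := by simpa using hGm h0
  have hGn : ∀ y ∈ ball (0 : V n) 1, ‖G y‖ < 1 := fun y hy => by simpa using hGm hy
  set a : V n := G 0 with hadef
  have hd : DifferentiableOn ℂ (fun y => aut a (G y)) (ball 0 1) := by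
    intro y hy
    have h1 : DifferentiableAt ℂ G y := hG.differentiableAt (isOpen_ball.mem_nhds hy)
    exact ((aut_diff ha (hGn y hy)).comp y h1).differentiableWithinAt
  have hm : MapsTo (fun y => aut a (G y)) (ball 0 1) (closedBall (aut a (G 0)) 1) := by
    intro y hy
    change aut a (G y) ∈ closedBall (aut a (G 0)) 1
    rw [← hadef, aut_self ha, mem_closedBall_zero_iff]
    exact (aut_mem ha (hGn y hy)).le
  have h1 := Complex.dist_le_div_mul_dist_of_mapsTo_ball hd hm hx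
  have h2 : ‖aut a (G x)‖ ≤ ‖x‖ := by
    have e : aut a (G 0) = 0 := by rw [← hadef, aut_self ha]
    rw [e, dist_zero_right, dist_zero_right] at h1
    simpa using h1
  have hw1 : ‖aut a (G x)‖ < 1 := aut_mem ha (hGn x hx)
  have h3 : G x = aut a (aut a (G x)) := (aut_aut ha (hGn x hx)).symm
  have h4 : ‖G x‖ * (1 + ‖a‖ * ‖aut a (G x)‖) ≤ ‖a‖ + ‖aut a (G x)‖ := by
    have := norm_aut_le ha hw1
    rwa [← h3] at this
  set w : ℝ := ‖aut a (G x)‖ with hw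
  have hw0 : 0 ≤ w := norm_nonneg _
  have ha0 := norm_nonneg a
  have hx0 := norm_nonneg x
  have hq : 0 < 1 + ‖a‖ * w := by positivity
  have h5 : (‖a‖ + w) * (1 + ‖a‖ * ‖x‖) ≤ (‖a‖ + ‖x‖) * (1 + ‖a‖ * w) := by
    have h6 : 0 ≤ 1 - ‖a‖ ^ 2 := (one_sub_pos ha).le
    have h7 : 0 ≤ (‖x‖ - w) * (1 - ‖a‖ ^ 2) := mul_nonneg (by linarith) h6
    linarith [h7, (by ring : (‖a‖ + ‖x‖) * (1 + ‖a‖ * w) - (‖a‖ + w) * (1 + ‖a‖ * ‖x‖)
      = (‖x‖ - w) * (1 - ‖a‖ ^ 2))]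
  have h6 : (‖G x‖ * (1 + ‖a‖ * ‖x‖)) * (1 + ‖a‖ * w) ≤ (‖a‖ + ‖x‖) * (1 + ‖a‖ * w) := by
    have h7 : 0 ≤ 1 + ‖a‖ * ‖x‖ := by positivity
    have h8 := mul_le_mul_of_nonneg_right h4 h7
    linarith [h5, h8, (by ring : (‖G x‖ * (1 + ‖a‖ * ‖x‖)) * (1 + ‖a‖ * w)
      = ‖G x‖ * (1 + ‖a‖ * w) * (1 + ‖a‖ * ‖x‖))]
  exact le_of_mul_le_mul_right h6 hq

end Pool.Agent.W397.SB
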